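import Pool.Agent.Helper57.MT.Goals

/-! # MC2-NL1: the Maynard weight for one point -/

set_option autoImplicit false

open Finset Filter Topology

open scoped Classical

namespace Pool.Agent.Helper53.MT

open Pool.Agent.Helper88.PP (pr Rg om Sf SS uu vv ee LA VV QQ cost)
open Pool.Agent.Helper23.MC (Ad NH VH TH kH rs Tj kj ZZ)

/-- the sum of the coefficients -/
theorem sum_kH (E z β j : ℕ) (_hz : 2 ≤ z) :
    ∑ t ∈ TH E z {j}, kH E z β {j} t
      = ∑ s ∈ SS z (z ^ (E / 64)), 1 / ((Nat.totient s : ℝ) * (E + β * ee z s)) := by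
  have hsub : Subsingleton ({j} : Finset ℕ) :=
    ⟨fun a b => Subtype.ext ((mem_singleton.1 a.2).trans (mem_singleton.1 b.2).symm)⟩
  refine Finset.sum_bij' (fun t _ => t ⟨j, mem_singleton_self j⟩) (fun s _ => fun _ => s)
    ?_ ?_ ?_ ?_ ?_
  · intro t ht
    unfold TH at ht
    exact Fintype.mem_piFinset.1 (mem_filter.1 ht).1 _
  · intro s hs
    unfold TH
    refine mem_filter.2 ⟨Fintype.mem_piFinset.2 (fun _ => hs), ?_⟩
    rw [Fintype.sum_subsingleton _ (⟨j, mem_singleton_self j⟩ : ({j} : Finset ℕ))]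
    have h1 : s ∈ Ico 1 (z ^ (E / 64)) := (mem_filter.1 hs).1
    rw [mem_Ico] at h1
    have h2 : Nat.log z s < E / 64 := Nat.log_lt_of_lt_pow (by omega) h1.2
    change ee z s ≤ E / 32
    unfold ee
    omega
  · intro t _
    funext i
    exact congrArg t (Subsingleton.elim _ _)
  · intro s _
    rfl
  · intro t _
    unfold kH
    rw [Fintype.prod_subsingleton _ (⟨j, mem_singleton_self j⟩ : ({j} : Finset ℕ))]

theorem TH_ne (E z j : ℕ) (hE : 64 ≤ E) (hz : 2 ≤ z) : (TH E z {j}).Nonempty := by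
  refine ⟨fun _ => 1, ?_⟩
  have hsub : Subsingleton ({j} : Finset ℕ) :=
    ⟨fun a b => Subtype.ext ((mem_singleton.1 a.2).trans (mem_singleton.1 b.2).symm)⟩
  unfold TH
  refine mem_filter.2 ⟨Fintype.mem_piFinset.2 (fun _ => ?_), ?_⟩
  · unfold SS
    refine mem_filter.2 ⟨mem_Ico.2 ⟨le_refl 1, ?_⟩, squarefree_one, fun p hp h1 => ?_⟩
    · exact Nat.one_lt_pow (by omega) (by omega)
    · exact absurd (Nat.dvd_one.1 h1) hp.one_lt.ne'
  · rw [Fintype.sum_subsingleton _ (⟨j, mem_singleton_self j⟩ : ({j} : Finset ℕ))]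
    unfold ee
    rw [Nat.log_one_right]
    omega

theorem nl1 : Pool.Agent.Helper57.MT.StmtNL1 := by
  intro E z β hE hz hβ H hH j hj I1 C hI hIC hC
  obtain ⟨a, rfl⟩ := Finset.card_eq_one.1 hH
  obtain rfl := mem_singleton.1 hj
  have hemp : IsEmpty ↥(({j} : Finset ℕ).erase j) := by
    refine ⟨fun x => ?_⟩
    have h1 := mem_erase.1 x.2
    exact h1.1 (mem_singleton.1 h1.2)
  have hk : ∀ s : ↥(({j} : Finset ℕ).erase j) → ℕ,
      kj {j} j (TH E z {j}) (kH E z β {j}) s = I1 := by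
    intro s
    unfold kj
    rw [filter_true_of_mem (fun t _ => Subsingleton.elim _ _), sum_kH E z β j hz, hI]
  have hI0 : 0 ≤ I1 := by
    rw [hI]
    exact Finset.sum_nonneg (fun s _ => by positivity)
  have h1z : 1 ≤ z ^ (E / 32) := Nat.one_le_pow _ _ (by omega)
  refine ⟨⟨fun s _ i => (hemp.false i).elim, fun s _ => ?_, fun s _ => ?_⟩, ?_⟩
  · rw [Finset.univ_eq_empty, Finset.prod_empty]
    exact h1z
  · rw [Finset.univ_eq_empty, Finset.prod_empty, mul_one, hk s, abs_of_nonneg hI0]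
    exact hIC
  · have hT : (Tj {j} j (TH E z {j})).Nonempty := by
      unfold Tj
      exact (TH_ne E z j hE hz).image _
    obtain ⟨s0, hs0⟩ := hT
    unfold NH
    have h2 : (kj {j} j (TH E z {j}) (kH E z β {j}) s0) ^ 2 *
        ∏ i : ↥(({j} : Finset ℕ).erase j), (Nat.totient (s0 i) : ℝ) = I1 ^ 2 := by
      rw [Finset.univ_eq_empty, Finset.prod_empty, mul_one, hk s0]
    rw [← h2]
    exact Finset.single_le_sum (f := fun s : ↥(({j} : Finset ℕ).erase j) → ℕ =>
      (kj {j} j (TH E z {j}) (kH E z β {j}) s) ^ 2 *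
        ∏ i : ↥(({j} : Finset ℕ).erase j), (Nat.totient (s i) : ℝ))
      (fun s _ => by positivity) hs0

end Pool.Agent.Helper53.MT
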